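import Pool.Agent.Lib.MP_5c9ca0_co.Defs
import Pool.Agent.Lib.MP_5c9ca0_co.W.ConnDef
import Pool.Agent.Lib.MP_5c9ca0_co.W.Main
import Pool.Agent.Lib.MP_5c9ca0_co.W.Six
import Pool.Agent.Lib.MP_5c9ca0_co.W.Conn1

namespace Pool.Agent.Results.MP_5c9ca0_co.RatioSet

open Pool.Agent.Lib.MP_5c9ca0_co

/-- The set of the ratios of the circular flow number and the 2-dimensional Chebyshev flow number
of bridgeless graphs (all of them if `c = false`, the connected ones if `c = true`) consists of all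
rational numbers of `[1, 5/2)` and of the ratios that are at least `5/2`; these are rational,
below `3`, and come only from graphs without a nowhere-zero 5-flow. -/
theorem result (c : Bool) :
    {x : ℝ | ∃ (n m : ℕ) (G : MGraph n m), G.Bridgeless ∧ (c = true → G.Conn) ∧
        x = G.circ / G.cheb} =
      {x : ℝ | ∃ q : ℚ, x = q ∧ 1 ≤ q ∧ q < 5 / 2} ∪
      {x : ℝ | ∃ q : ℚ, x = q ∧ 5 / 2 ≤ q ∧ q < 3 ∧
        ∃ (n m : ℕ) (G : MGraph n m), G.Bridgeless ∧ (c = true → G.Conn) ∧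
          (¬ ∃ φ : Fin m → ℤ, G.IsFlow φ ∧ ∀ e, φ e ≠ 0 ∧ |φ e| < 5) ∧ x = G.circ / G.cheb} := by
  ext x
  constructor
  · rintro ⟨n, m, G, h, hc, rfl⟩
    obtain ⟨q, h0, h1, h2⟩ := W.every_ratio G h
    rcases lt_or_ge q (5 / 2) with k | k
    · exact .inl ⟨q, h0, h1, k⟩
    · obtain ⟨p, p0, -, p1⟩ := W.ratio_lt_three G h
      obtain rfl : p = q := by exact_mod_cast p0.symm.trans h0
      refine .inr ⟨p, h0, k, p1, n, m, G, h, hc, ?_, rfl⟩
      rintro ⟨φ, hφ, b⟩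
      refine k.not_gt (h2 ((G.circ_least (G.S1_ne h)).2 ⟨by norm_num, _,
        hφ.map (Int.castAddHom ℝ), fun e => ?_⟩))
      have : 1 ≤ |φ e| ∧ |φ e| ≤ 4 := ⟨Int.one_le_abs (b e).1, by have := (b e).2; omega⟩
      show 1 ≤ |(φ e : ℝ)| ∧ |(φ e : ℝ)| ≤ 5 - 1
      rw [show (5 : ℝ) - 1 = 4 by norm_num]
      exact_mod_cast this
  · rintro (⟨q, rfl, h1, h2⟩ | ⟨q, -, -, -, n, m, G, h, hc, -, e⟩)
    · obtain ⟨n, m, G, k1, k2⟩ := W.graph_ratio q h1 h2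
      obtain ⟨k, l, H, a1, a2, a3, a4⟩ := W.graph_conn G k1
      exact ⟨k, l, H, a1, fun _ => a2, by rw [a3, a4, k2]⟩
    · exact ⟨n, m, G, h, hc, e⟩

end Pool.Agent.Results.MP_5c9ca0_co.RatioSet
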