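import Pool.Agent.Lib.MP_5c9ca0_co.Defs
import Pool.Agent.Lib.MP_5c9ca0_co.W.ConnDef
import Pool.Agent.Lib.MP_5c9ca0_co.W.Three

namespace Pool.Agent.Results.MP_5c9ca0_co.SnarkRatios

open Pool.Agent.Lib.MP_5c9ca0_co

/-- The set of the ratios of the circular flow number and the 2-dimensional Chebyshev flow number
of snarks (all of them if `c = false`, the connected ones if `c = true`) consists of all rational
numbers of `(16/9, 5/2)`, of some rational numbers of `(4/3, 16/9]`, and of some rational numbers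
of `[5/2, 3)`, which come only from snarks without a nowhere-zero 5-flow. -/
theorem result (c : Bool) :
    {x : ℝ | ∃ (n m : ℕ) (G : MGraph n m), G.IsSnark ∧ (c = true → G.Conn) ∧
        x = G.circ / G.cheb} =
      {x : ℝ | ∃ q : ℚ, x = q ∧ 16 / 9 < q ∧ q < 5 / 2} ∪
      {x : ℝ | ∃ q : ℚ, x = q ∧ 4 / 3 < q ∧ q ≤ 16 / 9 ∧
        ∃ (n m : ℕ) (G : MGraph n m), G.IsSnark ∧ (c = true → G.Conn) ∧ x = G.circ / G.cheb} ∪
      {x : ℝ | ∃ q : ℚ, x = q ∧ 5 / 2 ≤ q ∧ q < 3 ∧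
        ∃ (n m : ℕ) (G : MGraph n m), G.IsSnark ∧ (c = true → G.Conn) ∧
          (¬ ∃ φ : Fin m → ℤ, G.IsFlow φ ∧ ∀ e, φ e ≠ 0 ∧ |φ e| < 5) ∧ x = G.circ / G.cheb} := by
  ext x
  constructor
  · rintro ⟨n, m, G, h, hc, rfl⟩
    obtain ⟨q, h0, h1, h2, h3⟩ := W.snark_bounds G h
    rcases lt_or_ge q (5 / 2) with k | k
    · rcases lt_or_ge (16 / 9) q with j | j
      · exact .inl (.inl ⟨q, h0, j, k⟩)
      · exact .inl (.inr ⟨q, h0, h1, j, n, m, G, h, hc, rfl⟩)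
    · exact .inr ⟨q, h0, k, h2, n, m, G, h, hc,
        fun f => k.not_gt (h3 (W.circ_le_five G h.1 f)), rfl⟩
  · rintro ((⟨q, rfl, h1, h2⟩ | ⟨q, -, -, -, e⟩) | ⟨q, -, -, -, n, m, G, h, hc, -, e⟩)
    · obtain ⟨n, m, G, k1, k2⟩ := W.snark_ratio q h1 h2
      obtain ⟨k, l, H, a1, a2, a3, a4⟩ := W.snark_conn G k1
      exact ⟨k, l, H, a1, fun _ => a2, by rw [a3, a4, k2]⟩
    · exact e
    · exact ⟨n, m, G, h, hc, e⟩

end Pool.Agent.Results.MP_5c9ca0_co.SnarkRatios
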